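import Mathlib

set_option autoImplicit false

/-!
# Complete graphs with monochromatic cliques of every colour at every vertex

The colouring: the vertices are the pairs `(i, x)`, `i` in `ZMod r` (`r` odd), `x` in `ZMod m` with
`m = 2 k - 3`. Inside the part `i` everything has colour `i`; `(i, x)` and `(j, x)` are joined in
colour `(i + j) / 2`; and for `x ≠ y`, `i ≠ j` the edge between `(i, x)` and `(j, y)` has the colour
of the part of the head of the arc between `x` and `y` in a regular tournament on `ZMod m`.
-/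

namespace Pool.Agent.Q271.EN

open Finset

/-- `c` is an `r`-coloured `k`-enabling colouring of the edges of the complete graph on `V`. -/
def Enabling {V : Type} {r : ℕ} (k : ℕ) (c : Sym2 V → Fin r) : Prop :=
  ∀ (v : V) (i : Fin r), ∃ S : Finset V, v ∈ S ∧ S.card = k ∧
    ∀ x ∈ S, ∀ y ∈ S, x ≠ y → c s(x, y) = i

/-- the least number of vertices of a complete graph with such a colouring -/
noncomputable def nn (r k : ℕ) : ℕ :=
  sInf {n : ℕ | 0 < n ∧ ∃ c : Sym2 (Fin n) → Fin r, Enabling k c}

variable (s t : ℕ)

/-- the regular tournament -/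
def Arc (x y : ZMod (2 * t + 3)) : Prop := 1 ≤ (y - x).val ∧ (y - x).val ≤ t + 1

instance (x y : ZMod (2 * t + 3)) : Decidable (Arc t x y) := by unfold Arc; infer_instance

lemma arc_asymm {x y : ZMod (2 * t + 3)} (hxy : x ≠ y) : Arc t y x ↔ ¬ Arc t x y := by
  have h0 : (y - x) ≠ 0 := sub_ne_zero.mpr hxy.symm
  have h1 : (x - y).val = (2 * t + 3) - (y - x).val := by
    have : x - y = -(y - x) := by ring
    rw [this, ZMod.neg_val, if_neg h0]
  have h2 : (y - x).val < 2 * t + 3 := ZMod.val_lt _
  have h3 : 1 ≤ (y - x).val := by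
    rw [Nat.one_le_iff_ne_zero]
    intro h
    exact h0 ((ZMod.val_eq_zero _).mp h)
  unfold Arc
  rw [h1]
  omega

/-- the colour of an ordered pair -/
def col (p q : ZMod (2 * s + 1) × ZMod (2 * t + 3)) : ZMod (2 * s + 1) :=
  if p.1 = q.1 then p.1
  else if p.2 = q.2 then ((s : ZMod (2 * s + 1)) + 1) * (p.1 + q.1)
  else if Arc t p.2 q.2 then q.1 else p.1

lemma col_comm (p q : ZMod (2 * s + 1) × ZMod (2 * t + 3)) : col s t p q = col s t q p := by
  unfold col
  by_cases h1 : p.1 = q.1
  · rw [if_pos h1, if_pos h1.symm, h1]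
  · rw [if_neg h1, if_neg (Ne.symm h1)]
    by_cases h2 : p.2 = q.2
    · rw [if_pos h2, if_pos h2.symm, add_comm p.1]
    · rw [if_neg h2, if_neg (Ne.symm h2)]
      by_cases h3 : Arc t p.2 q.2
      · rw [if_pos h3, if_neg]
        rw [arc_asymm t h2]
        exact fun h => h h3
      · rw [if_neg h3, if_pos]
        rw [arc_asymm t h2]
        exact h3

/-- the colouring -/
def cc : Sym2 (ZMod (2 * s + 1) × ZMod (2 * t + 3)) → Fin (2 * s + 1) :=
  Sym2.lift ⟨fun p q => col s t p q, fun p q => col_comm s t p q⟩

lemma cc_mk (p q : ZMod (2 * s + 1) × ZMod (2 * t + 3)) : cc s t s(p, q) = col s t p q := rfl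

lemma half (c : ZMod (2 * s + 1)) : ((s : ZMod (2 * s + 1)) + 1) * (2 * c) = c := by
  have h : (2 * (s : ZMod (2 * s + 1)) + 1) = 0 := by
    have := ZMod.natCast_self (2 * s + 1)
    push_cast at this
    exact this
  linear_combination c * h

lemma two_inj {a b : ZMod (2 * s + 1)} (h : 2 * a = 2 * b) : a = b := by
  rw [← half s a, h, half]

lemma enabling : Enabling (t + 3) (cc s t) := by
  rintro ⟨i, x⟩ c
  change ZMod (2 * s + 1) at c
  haveI : NeZero (2 * s + 1) := ⟨by omega⟩
  haveI : NeZero (2 * t + 3) := ⟨by omega⟩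
  by_cases hci : c = i
  · subst hci
    obtain ⟨S, h1, h2, h3⟩ := Finset.exists_subsuperset_card_eq
      (s := {((c, x) : ZMod (2 * s + 1) × ZMod (2 * t + 3))})
      (t := (univ : Finset (ZMod (2 * t + 3))).image (fun y => (c, y))) (n := t + 3)
      (by
        rw [singleton_subset_iff, mem_image]
        exact ⟨x, mem_univ _, rfl⟩)
      (by simp) (by
        rw [card_image_of_injective _ (fun a b h => (Prod.mk.inj h).2), card_univ, ZMod.card]
        omega)
    refine ⟨S, h1 (mem_singleton_self _), h3, ?_⟩
    intro p hp q hq _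
    obtain ⟨y, -, rfl⟩ := mem_image.mp (h2 hp)
    obtain ⟨z, -, rfl⟩ := mem_image.mp (h2 hq)
    rw [cc_mk, col, if_pos rfl]
  · set l : ZMod (2 * s + 1) := 2 * c - i with hl
    have hli : l ≠ i := by
      intro h
      apply hci
      apply two_inj
      linear_combination h
    have hlc : l ≠ c := by
      intro h
      apply hci
      linear_combination h
    set T : Finset (ZMod (2 * s + 1) × ZMod (2 * t + 3)) :=
      (univ.filter (fun y => Arc t x y)).image (fun y => (c, y)) with hT
    have hTm : ∀ p, p ∈ T ↔ p.1 = c ∧ Arc t x p.2 := by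
      rintro ⟨a, y⟩
      rw [hT, mem_image]
      constructor
      · rintro ⟨z, hz, h⟩
        obtain ⟨rfl, rfl⟩ := Prod.mk.inj h
        exact ⟨rfl, (mem_filter.mp hz).2⟩
      · rintro ⟨h1, h2⟩
        simp only at h1 h2
        subst h1
        exact ⟨y, mem_filter.mpr ⟨mem_univ _, h2⟩, rfl⟩
    have hTc : T.card = t + 1 := by
      rw [hT, card_image_of_injective _ (fun a b h => (Prod.mk.inj h).2)]
      have : (univ.filter (fun y => Arc t x y)) =
          (Finset.Icc 1 (t + 1)).image (fun n : ℕ => x + (n : ZMod (2 * t + 3))) := by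
        ext y
        rw [mem_filter, mem_image]
        constructor
        · rintro ⟨-, h1, h2⟩
          refine ⟨(y - x).val, mem_Icc.mpr ⟨h1, h2⟩, ?_⟩
          rw [ZMod.natCast_zmod_val]
          ring
        · rintro ⟨n, hn, rfl⟩
          rw [mem_Icc] at hn
          refine ⟨mem_univ _, ?_⟩
          unfold Arc
          have : (x + (n : ZMod (2 * t + 3)) - x).val = n := by
            rw [add_sub_cancel_left, ZMod.val_natCast, Nat.mod_eq_of_lt (by omega)]
          rw [this]
          exact hn
      rw [this, card_image_of_injOn, Nat.card_Icc]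
      · omega
      · intro a ha b hb h
        rw [mem_coe, mem_Icc] at ha hb
        simp only [add_right_inj] at h
        have h' := congrArg ZMod.val h
        rwa [ZMod.val_natCast, ZMod.val_natCast, Nat.mod_eq_of_lt (by omega),
          Nat.mod_eq_of_lt (by omega)] at h'
    have hxx : ¬ Arc t x x := by
      unfold Arc
      rw [sub_self, ZMod.val_zero]
      omega
    refine ⟨insert (i, x) (insert (l, x) T), mem_insert_self _ _, ?_, ?_⟩
    · rw [card_insert_of_notMem, card_insert_of_notMem, hTc]
      · rw [hTm]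
        rintro ⟨h, -⟩
        exact hlc h
      · rw [mem_insert, hTm]
        rintro (h | ⟨h, -⟩)
        · exact hli (Prod.mk.inj h).1.symm
        · exact hci h.symm
    · have key1 : ∀ a : ZMod (2 * s + 1), a ≠ c → ∀ q ∈ T, col s t (a, x) q = c := by
        intro a ha q hq
        obtain ⟨h1, h2⟩ := (hTm q).mp hq
        have h3 : x ≠ q.2 := by
          intro h
          rw [← h] at h2
          exact hxx h2
        unfold col
        rw [if_neg (by simp only [h1]; exact ha), if_neg h3, if_pos h2, h1]
      have key2 : col s t (i, x) (l, x) = c := by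
        unfold col
        rw [if_neg (by simp only; exact hli.symm), if_pos rfl]
        have := half s c
        rw [← this]
        simp only [hl]
        ring
      have key3 : ∀ p ∈ T, ∀ q ∈ T, col s t p q = c := by
        intro p hp q hq
        have h1 := ((hTm p).mp hp).1
        have h2 := ((hTm q).mp hq).1
        unfold col
        rw [if_pos (h1.trans h2.symm), h1]
      intro p hp q hq hpq
      rw [cc_mk]
      rw [mem_insert, mem_insert] at hp hq
      rcases hp with rfl | rfl | hp <;> rcases hq with rfl | rfl | hq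
      · exact absurd rfl hpq
      · exact key2
      · exact key1 i (Ne.symm hci) q hq
      · rw [col_comm]; exact key2
      · exact absurd rfl hpq
      · exact key1 l hlc q hq
      · rw [col_comm]; exact key1 i (Ne.symm hci) p hp
      · rw [col_comm]; exact key1 l hlc p hp
      · exact key3 p hp q hq

lemma transfer {V : Type} [Fintype V] {r k : ℕ} (c : Sym2 V → Fin r) (h : Enabling k c) {n : ℕ}
    (hn : Fintype.card V = n) : ∃ c' : Sym2 (Fin n) → Fin r, Enabling k c' := by
  classical
  let e : V ≃ Fin n := Fintype.equivFinOfCardEq hn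
  refine ⟨fun z => c (z.map e.symm), ?_⟩
  intro v i
  obtain ⟨S, h1, h2, h3⟩ := h (e.symm v) i
  refine ⟨S.map e.toEmbedding, ?_, ?_, ?_⟩
  · rw [mem_map]
    exact ⟨e.symm v, h1, e.apply_symm_apply v⟩
  · rw [card_map, h2]
  · intro x hx y hy hxy
    obtain ⟨a, ha, rfl⟩ := mem_map.mp hx
    obtain ⟨b, hb, rfl⟩ := mem_map.mp hy
    have hab : a ≠ b := fun h => hxy (by rw [h])
    have := h3 a ha b hb hab
    simpa using this

theorem upper (r k : ℕ) (hr : Odd r) (hk : 3 ≤ k) : nn r k ≤ r * (2 * k - 3) := by
  obtain ⟨s, rfl⟩ := hr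
  obtain ⟨t, rfl⟩ := Nat.exists_eq_add_of_le hk
  haveI : NeZero (2 * s + 1) := ⟨by omega⟩
  haveI : NeZero (2 * t + 3) := ⟨by omega⟩
  have hcard : Fintype.card (ZMod (2 * s + 1) × ZMod (2 * t + 3)) =
      (2 * s + 1) * (2 * (3 + t) - 3) := by
    rw [Fintype.card_prod, ZMod.card, ZMod.card]
    congr 1
    omega
  have h := enabling s t
  rw [add_comm t 3] at h
  apply Nat.sInf_le
  refine ⟨Nat.mul_pos (by omega) (by omega), transfer (cc s t) h hcard⟩

end Pool.Agent.Q271.EN
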